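import Mathlib

/-!
# Besicovitch sets of dimension one, the Borel conjecture, and two combinatorial principles

A sentence of the forcing language of a preordered set `P` of conditions is represented by the
set of the conditions which force it. A name for a subset of a ground model set `X` is a map
`X → Set P`; the point `x` is in the named set iff the generic filter meets the image of `x`.
-/

set_option autoImplicit false

namespace Pool.Agent.H589Z.BSet

open Set Filter Topology
open scoped ENNReal

/-- The Euclidean plane. -/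
abbrev Plane : Type := EuclideanSpace ℝ (Fin 2)

/-- Gauge function: nondecreasing on `[0, ∞)`, zero at zero, positive elsewhere. -/
def IsGauge (φ : ℝ → ℝ) : Prop := MonotoneOn φ (Ici 0) ∧ φ 0 = 0 ∧ ∀ t, 0 < t → 0 < φ t

/-- `φ t / t → 0` as `t → 0+`. -/
def Superlinear (φ : ℝ → ℝ) : Prop := Tendsto (fun t => φ t / t) (𝓝[>] 0) (𝓝 0)

/-- The Hausdorff measure with gauge `φ` (the limit as `δ → 0+` is the supremum over `δ > 0`). -/
noncomputable def haus (φ : ℝ → ℝ) (E : Set Plane) : ℝ≥0∞ :=
  ⨆ (δ : ℝ) (_ : 0 < δ), ⨅ (U : ℕ → Set Plane) (_ : E ⊆ ⋃ i, U i)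
    (_ : ∀ i, Metric.ediam (U i) < ENNReal.ofReal δ),
      ∑' i, ENNReal.ofReal (φ (Metric.diam (U i)))

/-- A countable union of sets of finite `H¹` measure. -/
def SigmaFiniteOne (E : Set Plane) : Prop :=
  ∃ A : ℕ → Set Plane, E = ⋃ n, A n ∧ ∀ n, haus (fun t => t) (A n) < ⊤

/-- Not `σ`-finite in dimension one, and null for every superlinear gauge. -/
def IsBSet (E : Set Plane) : Prop :=
  ¬ SigmaFiniteOne E ∧ ∀ φ, IsGauge φ → Superlinear φ → haus φ E = 0

/-- Strong measure zero. -/
def StrongNull (X : Set ℝ) : Prop :=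
  ∀ ε : ℕ → ℝ, (∀ n, 0 < ε n) →
    ∃ a b : ℕ → ℝ, (∀ n, b n - a n ≤ ε n) ∧ X ⊆ ⋃ n, Icc (a n) (b n)

/-- Every strong measure zero set of reals is countable. -/
def BorelConjecture : Prop := ∀ X : Set ℝ, StrongNull X → X.Countable

/-- Principle A, the Borel conjecture for families of subsets of `ℕ`: if for every sequence of
lengths `n k` there are sets `s k` such that each member of the family agrees with `s k` below
`n k` for infinitely many `k`, then the family is countable. -/
def PrinA : Prop :=
  ∀ (E : Type) (x : E → Set ℕ),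
    (∀ n : ℕ → ℕ, ∃ s : ℕ → Set ℕ, ∀ e k₀, ∃ k, k₀ ≤ k ∧ ∀ j, j < n k → (j ∈ s k ↔ j ∈ x e)) →
    ∃ y : ℕ → Set ℕ, ∀ e, ∃ m, ∀ j, (j ∈ x e ↔ j ∈ y m)

/-- Principle B: along the linear order `I` there are sequences `g β` of pairs `(i, S)` with
`4 ^ i * |S| ≤ b i`, such that for all `f` and all `y` below `b`, for all large `β` and all but
finitely many `n`, the pair `g β n = (i, S)` has `f n ≤ i` and `y i ∈ S`. -/
def PrinB {I : Type} [LinearOrder I] (b : ℕ → ℕ) (g : I → ℕ → ℕ × Finset ℕ) : Prop :=
  (∀ β n, 4 ^ (g β n).1 * (g β n).2.card ≤ b (g β n).1) ∧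
  ∀ f y : ℕ → ℕ, (∀ i, y i < b i) → ∃ γ, ∀ β, γ ≤ β → ∃ m, ∀ n, m ≤ n →
    f n ≤ (g β n).1 ∧ y (g β n).1 ∈ (g β n).2

section Lang

universe v w

variable {P : Type} [Preorder P]

/-- `p` forces `not φ` iff no `q ≤ p` forces `φ`. -/
def fnot (φ : Set P) : Set P := {p | ∀ q ≤ p, q ∉ φ}

/-- `p` forces `φ and ψ` iff it forces both. -/
def fand (φ ψ : Set P) : Set P := {p | p ∈ φ ∧ p ∈ ψ}

/-- `p` forces `for all i, φ i` iff it forces every `φ i`. -/
def fall {ι : Sort v} (φ : ι → Set P) : Set P := {p | ∀ i, p ∈ φ i}

/-- `φ implies ψ` is `not (φ and not ψ)`. -/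
def fimp (φ ψ : Set P) : Set P := fnot (fand φ (fnot ψ))

/-- `φ if and only if ψ`. -/
def fiff (φ ψ : Set P) : Set P := fand (fimp φ ψ) (fimp ψ φ)

/-- `there is i with φ i` is `not for all i, not φ i`. -/
def fex {ι : Sort v} (φ : ι → Set P) : Set P := fnot (fall fun i => fnot (φ i))

/-- An absolute statement about ground model objects. -/
def fground (h : Prop) : Set P := {_p | h}

/-- `p` forces that the generic filter meets the set `N` of conditions. -/
def meets (N : Set P) : Set P := {p | ∀ q ≤ p, ∃ r ≤ q, ∃ s ∈ N, r ≤ s}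

/-- The relation named by `R` is a function from `X` to `Y`. -/
def IsFun {X : Type v} {Y : Type w} (R : X → Y → Set P) : Set P :=
  fand (fall fun x => fex fun y => meets (R x y))
    (fall fun x => fall fun y => fall fun y' =>
      fimp (fand (meets (R x y)) (meets (R x y'))) (fground (y = y')))

/-- Principle A as a sentence of the forcing language. -/
def ForcedA (P : Type) [Preorder P] : Set P :=
  fall fun E : Type => fall fun x : E → ℕ → Set P =>
    fimp
      (fall fun n : ℕ → ℕ → Set P => fimp (IsFun n)
        (fex fun s : ℕ → ℕ → Set P => fall fun e => fall fun k₀ : ℕ => fex fun k =>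
          fand (fground (k₀ ≤ k)) (fall fun j => fall fun c =>
            fimp (fand (meets (n k c)) (fground (j < c)))
              (fiff (meets (s k j)) (meets (x e j))))))
      (fex fun y : ℕ → ℕ → Set P => fall fun e => fex fun m => fall fun j =>
        fiff (meets (x e j)) (meets (y m j)))

/-- Principle B as a sentence of the forcing language; `g β` names a sequence of pairs. -/
def ForcedB {I : Type} [LinearOrder I] (b : ℕ → ℕ) (g : I → ℕ → ℕ × Finset ℕ → Set P) : Set P :=
  fand (fall fun β => IsFun (g β))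
    (fand
      (fall fun β => fall fun n => fall fun w =>
        fimp (meets (g β n w)) (fground (4 ^ w.1 * w.2.card ≤ b w.1)))
      (fall fun f : ℕ → ℕ → Set P => fall fun y : ℕ → ℕ → Set P =>
        fimp
          (fand (fand (IsFun f) (IsFun y))
            (fall fun i => fall fun v => fimp (meets (y i v)) (fground (v < b i))))
          (fex fun γ => fall fun β => fimp (fground (γ ≤ β))
            (fex fun m : ℕ => fall fun n => fall fun w => fall fun c => fall fun v =>
              fimp
                (fand (fground (m ≤ n))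
                  (fand (meets (g β n w)) (fand (meets (f n c)) (meets (y w.1 v)))))
                (fground (c ≤ w.1 ∧ v ∈ w.2))))))

end Lang

end Pool.Agent.H589Z.BSet
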