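import Pool.Agent.H589Z.BDefs

/-!
# Principle A implies the Borel conjecture
-/

set_option autoImplicit false

namespace Pool.Agent.H589Z.BSet

open Set

theorem exists_small_gap (q : ℕ → ℝ) (N : ℕ) :
    ∃ ε : ℝ, 0 < ε ∧ ∀ i < N, ∀ j < N, q i < q j → ε ≤ q j - q i := by
  classical
  let S : Finset ℝ := insert 1 ((((Finset.range N) ×ˢ (Finset.range N)).filter
    (fun p => q p.1 < q p.2)).image (fun p => q p.2 - q p.1))
  have hS : S.Nonempty := ⟨1, Finset.mem_insert_self _ _⟩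
  refine ⟨S.min' hS, ?_, ?_⟩
  · rcases Finset.mem_insert.1 (S.min'_mem hS) with h | h
    · rw [h]; exact one_pos
    · obtain ⟨p, hp, hp'⟩ := Finset.mem_image.1 h
      rw [← hp']
      exact sub_pos.2 (Finset.mem_filter.1 hp).2
  · intro i hi j hj hij
    refine S.min'_le _ (Finset.mem_insert_of_mem (Finset.mem_image.2 ⟨(i, j), ?_, rfl⟩))
    exact Finset.mem_filter.2 ⟨Finset.mem_product.2 ⟨Finset.mem_range.2 hi, Finset.mem_range.2 hj⟩,
      hij⟩

theorem two_patterns (q : ℕ → ℝ) (N : ℕ) {ε a b r : ℝ}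
    (hε : ∀ i < N, ∀ j < N, q i < q j → ε ≤ q j - q i) (hab : b - a ≤ ε) (hr : r ∈ Icc a b) :
    (∀ j < N, q j < a ↔ q j < r) ∨ (∀ j < N, q j < b ↔ q j < r) := by
  by_contra hc
  push Not at hc
  obtain ⟨⟨i, hi, h1⟩, ⟨j, hj, h2⟩⟩ := hc
  have ha := hr.1
  have hb := hr.2
  rcases h1 with h1 | h1
  · linarith [h1.1, h1.2]
  · rcases h2 with h2 | h2
    · have := hε i hi j hj (by linarith [h1.2, h2.2])
      linarith [h1.1, h2.1]
    · linarith [h2.1, h2.2]

theorem bc_of_prinA (h : PrinA) : BorelConjecture := by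
  intro X hX
  obtain ⟨q0, hq0⟩ := exists_surjective_nat ℚ
  let q : ℕ → ℝ := fun j => (q0 j : ℝ)
  let cut : ℝ → Set ℕ := fun r => {j | q j < r}
  have hinj : Function.Injective cut := by
    have key : ∀ r s : ℝ, r < s → cut r ≠ cut s := by
      intro r s hrs he
      obtain ⟨t, ht1, ht2⟩ := exists_rat_btwn hrs
      obtain ⟨j, rfl⟩ := hq0 t
      have h1 : j ∈ cut s := ht2
      rw [← he] at h1
      exact lt_asymm ht1 h1
    intro r s he
    rcases lt_trichotomy r s with h1 | h1 | h1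
    · exact (key r s h1 he).elim
    · exact h1
    · exact (key s r h1 he.symm).elim
  obtain ⟨y, hy⟩ := h X (fun e => cut e.1) (by
    intro n
    choose ε hε0 hε using fun p : ℕ => exists_small_gap q (max (n (2 * p)) (n (2 * p + 1)))
    choose a b hab hcov using fun m : ℕ => hX (fun i => ε (Nat.pair m i)) (fun i => hε0 _)
    refine ⟨fun k => if k % 2 = 0 then cut (a (k / 2).unpair.1 (k / 2).unpair.2)
      else cut (b (k / 2).unpair.1 (k / 2).unpair.2), ?_⟩
    intro e k₀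
    obtain ⟨i, hi⟩ := mem_iUnion.1 (hcov k₀ e.2)
    have hk : k₀ ≤ Nat.pair k₀ i := Nat.left_le_pair _ _
    rcases two_patterns q _ (hε (Nat.pair k₀ i)) (hab k₀ i) hi with h1 | h1
    · refine ⟨2 * Nat.pair k₀ i, by omega, fun j hj => ?_⟩
      have e1 : 2 * Nat.pair k₀ i % 2 = 0 := by omega
      have e2 : 2 * Nat.pair k₀ i / 2 = Nat.pair k₀ i := by omega
      simp only [e1, e2, if_true, Nat.unpair_pair]
      exact h1 j (lt_of_lt_of_le hj (le_max_left _ _))
    · refine ⟨2 * Nat.pair k₀ i + 1, by omega, fun j hj => ?_⟩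
      have e1 : ¬ (2 * Nat.pair k₀ i + 1) % 2 = 0 := by omega
      have e2 : (2 * Nat.pair k₀ i + 1) / 2 = Nat.pair k₀ i := by omega
      simp only [e1, e2, if_false, Nat.unpair_pair]
      exact h1 j (lt_of_lt_of_le hj (le_max_right _ _)))
  have hsub : X ⊆ cut ⁻¹' (range y) := by
    intro r hr
    obtain ⟨m, hm⟩ := hy ⟨r, hr⟩
    exact ⟨m, (Set.ext hm).symm⟩
  exact ((countable_range y).preimage hinj).mono hsub

end Pool.Agent.H589Z.BSet
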