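import Pool.Agent.H589Z.BDefs

/-!
# Principle B gives a Besicovitch set of dimension one
-/

set_option autoImplicit false

namespace Pool.Agent.H589Z.BSet

open Set Filter Topology MeasureTheory
open scoped ENNReal

namespace ZB

theorem inf_le_of_countable {J : Type} [Countable J] (φ : ℝ → ℝ) (h0 : φ 0 = 0) (E : Set Plane)
    {δ : ℝ} (hδ : 0 < δ) (U : J → Set Plane) (hE : E ⊆ ⋃ j, U j)
    (hU : ∀ j, Metric.ediam (U j) < ENNReal.ofReal δ) :
    (⨅ (U : ℕ → Set Plane) (_ : E ⊆ ⋃ i, U i)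
      (_ : ∀ i, Metric.ediam (U i) < ENNReal.ofReal δ),
        ∑' i, ENNReal.ofReal (φ (Metric.diam (U i)))) ≤
      ∑' j, ENNReal.ofReal (φ (Metric.diam (U j))) := by
  letI := Encodable.ofCountable J
  refine iInf_le_of_le (fun i => ⋃ j ∈ Encodable.decode₂ J i, U j) (iInf_le_of_le ?_
    (iInf_le_of_le ?_ (le_of_eq ?_)))
  · rwa [Encodable.iUnion_decode₂]
  · intro i
    refine Encodable.iUnion_decode₂_cases
      (C := fun s => Metric.ediam s < ENNReal.ofReal δ) ?_ hU
    simpa using hδ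
  · exact tsum_iUnion_decode₂ (fun s => ENNReal.ofReal (φ (Metric.diam s))) (by simp [h0]) U

theorem haus_zero {K : Type} [Countable K] (φ : ℝ → ℝ) (h0 : φ 0 = 0)
    (hφ : ∀ t, 0 ≤ t → 0 ≤ φ t) (E : Set Plane) (F : ℕ → Finset K) (U : K → Set Plane)
    (r : ℕ → ℝ) (hr : Tendsto r atTop (𝓝 0))
    (hd : ∀ n, ∀ k ∈ F n, Metric.ediam (U k) ≤ ENNReal.ofReal (r n))
    (hc : ∀ n, ∑ k ∈ F n, φ (Metric.diam (U k)) ≤ 2 * (1 / 2 : ℝ) ^ n)
    (hE : ∀ p ∈ E, ∀ N, ∃ n, N ≤ n ∧ ∃ k ∈ F n, p ∈ U k) : haus φ E = 0 := by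
  classical
  refine le_antisymm (iSup₂_le fun δ hδ => ?_) zero_le
  obtain ⟨N0, hN0⟩ := eventually_atTop.1 (hr.eventually (gt_mem_nhds hδ))
  have key : ∀ N, N0 ≤ N → (⨅ (U : ℕ → Set Plane) (_ : E ⊆ ⋃ i, U i)
      (_ : ∀ i, Metric.ediam (U i) < ENNReal.ofReal δ),
        ∑' i, ENNReal.ofReal (φ (Metric.diam (U i)))) ≤
      ENNReal.ofReal (4 * (1 / 2 : ℝ) ^ N) := by
    intro N hN
    refine (inf_le_of_countable φ h0 E hδ
      (fun j : ℕ × K => if j.2 ∈ F (j.1 + N) then U j.2 else ∅) ?_ ?_).trans ?_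
    · intro p hp
      obtain ⟨n, hn, k, hk, hpk⟩ := hE p hp N
      refine mem_iUnion.2 ⟨(n - N, k), ?_⟩
      simp only [Nat.sub_add_cancel hn, if_pos hk]
      exact hpk
    · rintro ⟨n, k⟩
      simp only
      split_ifs with hk
      · exact (hd _ k hk).trans_lt ((ENNReal.ofReal_lt_ofReal_iff hδ).2 (hN0 _ (by omega)))
      · simpa using hδ
    · rw [ENNReal.tsum_prod']
      have h1 : ∀ n, ∑' k, ENNReal.ofReal (φ (Metric.diam
          (if k ∈ F (n + N) then U k else ∅))) ≤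
          ENNReal.ofReal (2 * (1 / 2 : ℝ) ^ N * (1 / 2 : ℝ) ^ n) := by
        intro n
        rw [tsum_eq_sum (s := F (n + N)) (fun k hk => by simp [hk, h0])]
        rw [Finset.sum_congr rfl (fun k hk => by rw [if_pos hk]),
          ← ENNReal.ofReal_sum_of_nonneg (fun k _ => hφ _ Metric.diam_nonneg)]
        refine ENNReal.ofReal_le_ofReal ((hc _).trans (le_of_eq ?_))
        rw [pow_add]; ring
      refine (ENNReal.tsum_le_tsum h1).trans (le_of_eq ?_)
      rw [← ENNReal.ofReal_tsum_of_nonneg (fun n => by positivity)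
        (summable_geometric_two.mul_left _), tsum_mul_left, tsum_geometric_two]
      congr 1; ring
  have hlim : Tendsto (fun N : ℕ => ENNReal.ofReal (4 * (1 / 2 : ℝ) ^ N)) atTop (𝓝 0) := by
    have := ENNReal.tendsto_ofReal ((tendsto_pow_atTop_nhds_zero_of_lt_one
      (r := (1 / 2 : ℝ)) (by norm_num) (by norm_num)).const_mul 4)
    simpa using this
  exact ge_of_tendsto hlim (eventually_atTop.2 ⟨N0, key⟩)

theorem ae_finite_section (A : Set Plane) (hA : haus (fun t => t) A < ⊤) :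
    ∀ᵐ y : ℝ, {x : ℝ | (!₂[x, y] : Plane) ∈ A}.Finite := by
  classical
  set C := haus (fun t => t) A + 1 with hC
  have hCt : C < ⊤ := ENNReal.add_lt_top.2 ⟨hA, ENNReal.one_lt_top⟩
  have hex : ∀ j : ℕ, ∃ U : ℕ → Set Plane, A ⊆ ⋃ i, U i ∧
      (∀ i, Metric.ediam (U i) < ENNReal.ofReal (1 / ((j : ℝ) + 1))) ∧
      ∑' i, ENNReal.ofReal (Metric.diam (U i)) < C := by
    intro j
    have h1 : (⨅ (U : ℕ → Set Plane) (_ : A ⊆ ⋃ i, U i)
        (_ : ∀ i, Metric.ediam (U i) < ENNReal.ofReal (1 / ((j : ℝ) + 1))),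
          ∑' i, ENNReal.ofReal (Metric.diam (U i))) < C := by
      refine lt_of_le_of_lt ?_ (ENNReal.lt_add_right hA.ne one_ne_zero)
      exact le_iSup₂_of_le (f := fun (δ : ℝ) (_ : 0 < δ) =>
        ⨅ (U : ℕ → Set Plane) (_ : A ⊆ ⋃ i, U i)
          (_ : ∀ i, Metric.ediam (U i) < ENNReal.ofReal δ),
            ∑' i, ENNReal.ofReal (Metric.diam (U i))) (1 / ((j : ℝ) + 1)) (by positivity) le_rfl
    simp only [iInf_lt_iff] at h1
    obtain ⟨U, h2, h3, h4⟩ := h1
    exact ⟨U, h2, h3, h4⟩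
  choose U hU1 hU2 hU3 using hex
  set I : ℕ → ℕ → Set ℝ := fun j i => closure ((fun p : Plane => p 1) '' U j i) with hI
  have hIm : ∀ j i, MeasurableSet (I j i) := fun j i => isClosed_closure.measurableSet
  have hlip : LipschitzWith 1 (fun p : Plane => p 1) :=
    LipschitzWith.of_dist_le_mul (fun p q => by simpa using PiLp.dist_apply_le p q 1)
  have hvol : ∀ j i, volume (I j i) ≤ ENNReal.ofReal (Metric.diam (U j i)) := by
    intro j i
    refine (Real.volume_le_diam _).trans ?_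
    rw [Metric.ediam_closure, Metric.diam, ENNReal.ofReal_toReal (hU2 j i).ne_top]
    simpa using hlip.ediam_image_le (U j i)
  set N : ℕ → ℝ → ℝ≥0∞ := fun j y => ∑' i, (I j i).indicator 1 y with hN
  have hNm : ∀ j, Measurable (N j) := fun j =>
    Measurable.ennreal_tsum (fun i => measurable_one.indicator (hIm j i))
  have hint : ∀ j, ∫⁻ y, N j y ≤ C := by
    intro j
    simp only [hN]
    rw [lintegral_tsum (fun i => (measurable_one.indicator (hIm j i)).aemeasurable)]
    simp only [lintegral_indicator_one (hIm j _)]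
    exact (ENNReal.tsum_le_tsum (hvol j)).trans (hU3 j).le
  have hfat : ∫⁻ y, liminf (fun j => N j y) atTop < ⊤ := by
    refine lt_of_le_of_lt ((lintegral_liminf_le hNm).trans ?_) hCt
    exact liminf_le_of_frequently_le' (Frequently.of_forall hint)
  filter_upwards [ae_lt_top (Measurable.liminf hNm) hfat.ne] with y hy
  by_contra hinf
  have hinf : {x : ℝ | (!₂[x, y] : Plane) ∈ A}.Infinite := hinf
  obtain ⟨M, hM⟩ := ENNReal.exists_nat_gt hy.ne
  obtain ⟨T, hT, hTc⟩ := hinf.exists_subset_card_eq M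
  have hev : ∀ᶠ j : ℕ in atTop, ∀ a ∈ T, ∀ c ∈ T, a ≠ c → 1 / ((j : ℝ) + 1) < |a - c| := by
    refine (eventually_all_finset T).2 (fun a _ => (eventually_all_finset T).2 (fun c _ => ?_))
    by_cases hac : a = c
    · exact Eventually.of_forall (fun j h => absurd hac h)
    · filter_upwards [tendsto_one_div_add_atTop_nhds_zero_nat.eventually
        (gt_mem_nhds (abs_pos.2 (sub_ne_zero.2 hac)))] with j hj _ using hj
  have : (M : ℝ≥0∞) ≤ liminf (fun j => N j y) atTop := by
    refine le_liminf_of_le ?_ ?_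
    · isBoundedDefault
    filter_upwards [hev] with j hj
    have h1 : ∀ a : ℝ, ∃ i, a ∈ T → (!₂[a, y] : Plane) ∈ U j i := by
      intro a
      by_cases ha : a ∈ T
      · obtain ⟨i, hi⟩ := mem_iUnion.1 (hU1 j (hT ha))
        exact ⟨i, fun _ => hi⟩
      · exact ⟨0, fun h => absurd h ha⟩
    choose ι hι using h1
    have hinj : Set.InjOn ι T := by
      intro a ha c hc hac
      by_contra hne
      have h2 := hι a ha
      have h3 := hι c hc
      rw [← hac] at h3
      have h4 := (Metric.edist_le_ediam_of_mem h2 h3).trans_lt (hU2 j _)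
      rw [edist_dist, ENNReal.ofReal_lt_ofReal_iff (by positivity)] at h4
      have h5 := PiLp.dist_apply_le (!₂[a, y] : Plane) (!₂[c, y] : Plane) 0
      simp only [Matrix.cons_val_zero, Real.dist_eq] at h5
      linarith [hj a ha c hc hne]
    refine le_trans ?_ (ENNReal.sum_le_tsum (T.image ι))
    rw [Finset.sum_congr rfl (g := fun _ => 1) (fun i hi => by
      obtain ⟨a, ha, rfl⟩ := Finset.mem_image.1 hi
      rw [indicator_of_mem]
      · rfl
      · exact subset_closure ⟨_, hι a ha, by simp⟩)]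
    simp [Finset.card_image_of_injOn hinj, hTc]
  exact absurd hM (not_lt.2 this)

theorem cf_close (f f' : ℕ → Bool) (N : ℕ) (h : ∀ n < N, f n = f' n) :
    |Cardinal.cantorFunction (1 / 3) f - Cardinal.cantorFunction (1 / 3) f'| ≤
      2 * (1 / 3 : ℝ) ^ N := by
  have hs := fun f => Cardinal.summable_cantor_function f (c := 1 / 3) (by norm_num) (by norm_num)
  unfold Cardinal.cantorFunction
  rw [← (hs f).tsum_sub (hs f'), ← ((hs f).sub (hs f')).sum_add_tsum_nat_add N,
    Finset.sum_eq_zero (fun n hn => by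
      simp only [Cardinal.cantorFunctionAux, h n (Finset.mem_range.1 hn), sub_self]), zero_add]
  have h1 : HasSum (fun n : ℕ => (1 / 3 : ℝ) ^ N * (1 / 3 : ℝ) ^ n)
      ((1 / 3 : ℝ) ^ N * (1 - 1 / 3)⁻¹) :=
    (hasSum_geometric_of_lt_one (by norm_num) (by norm_num)).mul_left _
  have h2 := tsum_of_norm_bounded (f := fun n => Cardinal.cantorFunctionAux (1 / 3) f (n + N) -
    Cardinal.cantorFunctionAux (1 / 3) f' (n + N)) h1 (fun n => by
      rw [← pow_add, add_comm N n, Real.norm_eq_abs]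
      have : (0 : ℝ) < (1 / 3 : ℝ) ^ (n + N) := by positivity
      unfold Cardinal.cantorFunctionAux
      rcases f (n + N) <;> rcases f' (n + N) <;>
        simp only [cond_true, cond_false, sub_self, sub_zero, zero_sub, abs_zero, abs_neg] <;>
        first | exact this.le | exact (abs_of_pos this).le)
  rw [Real.norm_eq_abs] at h2
  refine h2.trans ?_
  have : (0 : ℝ) < (1 / 3 : ℝ) ^ N := by positivity
  norm_num
  linarith

theorem exists_code (b : ℕ → ℕ) (hb : ∀ i, 0 < b i) :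
    ∃ x : Set ℕ → ℝ, Function.Injective x ∧
      ∀ (A A' : Set ℕ) (i : ℕ), (∀ j < i, j ∈ A ↔ j ∈ A') → |x A - x A'| ≤ 2 / b i := by
  classical
  set e : ℕ → ℕ := fun i => ∑ j ∈ Finset.range (i + 1), b j with he
  have hmono : StrictMono e := strictMono_nat_of_lt_succ (fun n => by
    simp only [he, Finset.sum_range_succ _ (n + 1)]
    have := hb (n + 1); omega)
  have hbe : ∀ i, b i ≤ e i := fun i => by
    simp only [he, Finset.sum_range_succ]; omega
  refine ⟨fun A => Cardinal.cantorFunction (1 / 3) (fun n => decide (n ∈ e '' A)), ?_, ?_⟩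
  · intro A A' h
    have h1 := Cardinal.cantorFunction_injective (c := 1 / 3) (by norm_num) (by norm_num) h
    refine image_injective.2 hmono.injective ?_
    ext n
    simpa using congrFun h1 n
  · intro A A' i h
    refine (cf_close _ _ (e i) (fun n hn => ?_)).trans ?_
    · simp only [decide_eq_decide]
      constructor
      · rintro ⟨j, hj, rfl⟩
        exact ⟨j, (h j (hmono.lt_iff_lt.1 hn)).1 hj, rfl⟩
      · rintro ⟨j, hj, rfl⟩
        exact ⟨j, (h j (hmono.lt_iff_lt.1 hn)).2 hj, rfl⟩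
    · have h1 : b i ≤ 3 ^ e i := (hbe i).trans (Nat.lt_pow_self (by norm_num)).le
      have h2 : (b i : ℝ) ≤ 3 ^ e i := by exact_mod_cast h1
      have h3 : (0 : ℝ) < b i := by exact_mod_cast hb i
      rw [one_div, inv_pow, ← div_eq_mul_inv]
      exact div_le_div_of_nonneg_left (by norm_num) h3 h2

/-- infinitely many gaps of length prescribed by `d` -/
def Gap (d : ℕ → ℕ) (A : Set ℕ) : Prop := ∀ N, ∃ n, N ≤ n ∧ ∀ j ∈ A, n ≤ j → d n ≤ j

theorem not_countable_gap (d : ℕ → ℕ) : ¬ {A | Gap d A}.Countable := by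
  intro hc
  let nn : ℕ → ℕ := fun k => Nat.rec 0 (fun _ a => a + 1 + d (a + 1)) k
  have hs : ∀ k, nn (k + 1) = nn k + 1 + d (nn k + 1) := fun k => rfl
  have hmono : StrictMono nn := strictMono_nat_of_lt_succ (fun n => by rw [hs]; omega)
  have h1 : (univ : Set (Set ℕ)).Countable := by
    refine (hc.preimage_of_injOn (f := fun B : Set ℕ => nn '' B)
      ((image_injective.2 hmono.injective).injOn)).mono ?_
    intro B _ N
    refine ⟨nn N + 1, (hmono.id_le N).trans (Nat.le_succ _), ?_⟩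
    rintro j ⟨l, -, rfl⟩ hl
    have h2 : N + 1 ≤ l := hmono.lt_iff_lt.1 hl
    have h3 := hmono.monotone h2
    rw [hs] at h3
    omega
  have : Countable (Set ℕ) := countable_univ_iff.1 h1
  obtain ⟨s, hs⟩ := exists_surjective_nat (Set ℕ)
  exact Function.cantor_surjective s hs

theorem rect_dist {c β : ℝ} (hβ : 0 < β) {d : ℝ} {p q : Plane}
    (hp : |p 0 - c| ≤ 2 / β ∧ d / β ≤ p 1 ∧ p 1 ≤ (d + 1) / β)
    (hq : |q 0 - c| ≤ 2 / β ∧ d / β ≤ q 1 ∧ q 1 ≤ (d + 1) / β) : dist p q ≤ 5 / β := by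
  rw [EuclideanSpace.dist_eq, Fin.sum_univ_two, Real.dist_eq, Real.dist_eq, sq_abs, sq_abs]
  have e1 : 2 / β = 2 * (1 / β) := by ring
  have e2 : (d + 1) / β = d / β + 1 / β := by ring
  have e3 : 5 / β = 5 * (1 / β) := by ring
  have h0 : 0 < 1 / β := by positivity
  rw [e1, e2] at hp hq
  rw [e3]
  set t := 1 / β
  have h1 := abs_le.1 hp.1
  have h2 := abs_le.1 hq.1
  have h3 : (p 0 - q 0) ^ 2 ≤ (4 * t) ^ 2 := sq_le_sq' (by linarith) (by linarith)
  have h4 : (p 1 - q 1) ^ 2 ≤ t ^ 2 :=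
    sq_le_sq' (by linarith [hp.2.1, hq.2.2]) (by linarith [hp.2.2, hq.2.1])
  refine Real.sqrt_le_iff.2 ⟨by positivity, ?_⟩
  nlinarith

end ZB

open ZB in
theorem bset_of_prinB {I : Type} [LinearOrder I] (b : ℕ → ℕ) (hb : ∀ i, 0 < b i)
    (g : I → ℕ → ℕ × Finset ℕ) (h : PrinB b g) : ∃ E, IsBSet E := by
  classical
  obtain ⟨x, hxi, hx⟩ := exists_code b hb
  have hbr : ∀ i, (0 : ℝ) < b i := fun i => by exact_mod_cast hb i
  set dig : ℝ → ℕ → ℕ := fun y i => ⌊y * b i⌋₊ with hdig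
  have hdl : ∀ y ∈ Ico (0 : ℝ) 1, ∀ i, dig y i < b i := fun y hy i => by
    simp only [hdig]
    rw [Nat.floor_lt (mul_nonneg hy.1 (hbr i).le)]
    exact mul_lt_of_lt_one_left (hbr i) hy.2
  choose α hα using fun (y : ℝ) (hy : y ∈ Ico (0 : ℝ) 1) => h.2 (fun _ => 0) (dig y) (hdl y hy)
  refine ⟨{p | ∃ (A : Set ℕ) (hy : p 1 ∈ Ico (0 : ℝ) 1), p 0 = x A ∧
    Gap (fun n => (g (α (p 1) hy) n).1) A}, ?_, ?_⟩
  · rintro ⟨A, hA, hfin⟩
    have h1 := ae_all_iff.2 (fun n => ae_finite_section (A n) (hfin n))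
    obtain ⟨y, hy, hyf⟩ := Measure.exists_mem_of_measure_ne_zero_of_ae
      (s := Ico (0 : ℝ) 1) (by simp) (ae_restrict_of_ae h1)
    refine not_countable_gap (fun n => (g (α y hy) n).1) ?_
    refine (((countable_iUnion (fun n => (hyf n).countable)).preimage_of_injOn (f := x)
      hxi.injOn)).mono (fun B hB => ?_)
    have : (!₂[x B, y] : Plane) ∈ ⋃ n, A n := by
      rw [← hA]
      exact ⟨B, hy, rfl, hB⟩
    obtain ⟨n, hn⟩ := mem_iUnion.1 this
    exact mem_iUnion.2 ⟨n, hn⟩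
  · intro φ hφ hsup
    have hφ0 : ∀ t, 0 ≤ t → 0 ≤ φ t := fun t ht => by
      rw [← hφ.2.1]; exact hφ.1 (le_refl (0 : ℝ)) ht ht
    have hbig : ∀ M, ∃ i, M ≤ i ∧ 4 ^ i ≤ b i := by
      intro M
      obtain ⟨γ, hγ⟩ := h.2 (fun _ => M) (fun _ => 0) hb
      obtain ⟨m, hm⟩ := hγ γ le_rfl
      obtain ⟨h1, h2⟩ := hm m le_rfl
      exact ⟨_, h1, le_trans (Nat.le_mul_of_pos_right _ (Finset.card_pos.2 ⟨_, h2⟩)) (h.1 γ m)⟩
    have hf : ∀ n : ℕ, ∃ i, n ≤ i ∧ 4 ^ i ≤ b i ∧
        ∀ t, 0 < t → t ≤ 5 / 4 ^ i → φ t ≤ t * ((1 / 4 : ℝ) ^ n / 5) := by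
      intro n
      have h1 := hsup.eventually (gt_mem_nhds (show (0 : ℝ) < (1 / 4 : ℝ) ^ n / 5 by positivity))
      obtain ⟨u, hu, hu'⟩ := (mem_nhdsGT_iff_exists_Ioo_subset).1 h1
      have h2 : Tendsto (fun i : ℕ => 5 * (1 / 4 : ℝ) ^ i) atTop (𝓝 0) := by
        simpa using (tendsto_pow_atTop_nhds_zero_of_lt_one (r := (1 / 4 : ℝ)) (by norm_num)
          (by norm_num)).const_mul 5
      obtain ⟨M, hM⟩ := eventually_atTop.1 (h2.eventually (gt_mem_nhds hu))
      obtain ⟨i, hi1, hi2⟩ := hbig (max M n)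
      refine ⟨i, (le_max_right _ _).trans hi1, hi2, fun t ht1 ht2 => ?_⟩
      have h3 := hM i ((le_max_left _ _).trans hi1)
      rw [one_div, inv_pow, ← div_eq_mul_inv] at h3
      have h4 : φ t / t < (1 / 4 : ℝ) ^ n / 5 := hu' ⟨ht1, ht2.trans_lt h3⟩
      rw [div_lt_iff₀ ht1] at h4
      linarith
    choose f hf1 hf2 hf3 using hf
    obtain ⟨γ, hγ⟩ := h.2 f (fun _ => 0) hb
    set U : ℕ × Finset ℕ × ℕ → Set Plane := fun k =>
      {p | |p 0 - x (k.2.1 : Set ℕ)| ≤ 2 / b k.1 ∧ (k.2.2 : ℝ) / b k.1 ≤ p 1 ∧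
        p 1 ≤ ((k.2.2 : ℝ) + 1) / b k.1} with hU
    set F1 : ℕ → Finset (ℕ × Finset ℕ × ℕ) := fun n =>
      {f n} ×ˢ (Finset.range n).powerset ×ˢ Finset.range (b (f n)) with hF1
    set F2 : ℕ → Finset (ℕ × Finset ℕ × ℕ) := fun n =>
      if f n ≤ (g γ n).1 then {(g γ n).1} ×ˢ (Finset.range (g γ n).1).powerset ×ˢ (g γ n).2
      else ∅ with hF2
    have hscale : ∀ n, ∀ k ∈ F1 n ∪ F2 n, (5 : ℝ) / b k.1 ≤ 5 / 4 ^ f n := by
      intro n k hk
      have : 4 ^ f n ≤ b k.1 := by
        rcases Finset.mem_union.1 hk with hk | hk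
        · simp only [hF1, Finset.mem_product, Finset.mem_singleton] at hk
          rw [hk.1]; exact hf2 n
        · simp only [hF2] at hk
          split_ifs at hk with hh
          · simp only [Finset.mem_product, Finset.mem_singleton] at hk
            rw [hk.1]
            exact (Nat.pow_le_pow_right (by norm_num) hh).trans (le_trans
              (Nat.le_mul_of_pos_right _ (Finset.card_pos.2 ⟨_, hk.2.2⟩)) (h.1 γ n))
          · simp at hk
      have h2 : (4 : ℝ) ^ f n ≤ b k.1 := by exact_mod_cast this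
      exact div_le_div_of_nonneg_left (by norm_num) (by positivity) h2
    have hcost : ∀ n, ∀ k ∈ F1 n ∪ F2 n, φ (Metric.diam (U k)) ≤ (1 / 4 : ℝ) ^ n / b k.1 := by
      intro n k hk
      have h0 := hbr k.1
      have h1 : Metric.diam (U k) ≤ 5 / b k.1 :=
        Metric.diam_le_of_forall_dist_le (by positivity)
          (fun p hp q hq => rect_dist h0 hp hq)
      have h2 := hφ.1 (Metric.diam_nonneg) (show (0 : ℝ) ≤ 5 / b k.1 by positivity) h1
      refine h2.trans ((hf3 n _ (by positivity) (hscale n k hk)).trans (le_of_eq ?_))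
      field_simp
    have hmem : ∀ (p : Plane) (A : Set ℕ) (i : ℕ) (s : Finset ℕ), p 1 ∈ Ico (0 : ℝ) 1 →
        p 0 = x A → (∀ j < i, j ∈ A ↔ j ∈ s) → p ∈ U (i, s, dig (p 1) i) := by
      intro p A i s hy hp hs
      refine ⟨by rw [hp]; exact hx _ _ _ hs, ?_, ?_⟩
      · rw [div_le_iff₀ (hbr i)]
        exact Nat.floor_le (mul_nonneg hy.1 (hbr i).le)
      · rw [le_div_iff₀ (hbr i)]
        exact (Nat.lt_floor_add_one _).le
    refine haus_zero φ hφ.2.1 hφ0 _ (fun n => F1 n ∪ F2 n) U (fun n => 5 * (1 / 4 : ℝ) ^ n)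
      ?_ ?_ ?_ ?_
    · simpa using (tendsto_pow_atTop_nhds_zero_of_lt_one (r := (1 / 4 : ℝ)) (by norm_num)
        (by norm_num)).const_mul 5
    · intro n k hk
      refine Metric.ediam_le_of_forall_dist_le (fun p hp q hq => ?_)
      refine (rect_dist (hbr k.1) hp hq).trans ((hscale n k hk).trans ?_)
      rw [one_div, inv_pow, ← div_eq_mul_inv]
      exact div_le_div_of_nonneg_left (by norm_num) (by positivity)
        (pow_le_pow_right₀ (by norm_num) (hf1 n))
    · intro n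
      refine (Finset.sum_le_sum (hcost n)).trans ?_
      have h1 := Finset.sum_union_inter (s₁ := F1 n) (s₂ := F2 n)
        (f := fun k => (1 / 4 : ℝ) ^ n / b k.1)
      have h2 : 0 ≤ ∑ k ∈ F1 n ∩ F2 n, (1 / 4 : ℝ) ^ n / b k.1 :=
        Finset.sum_nonneg (fun k _ => by positivity)
      have h3 : ∑ k ∈ F1 n, (1 / 4 : ℝ) ^ n / b k.1 = (1 / 2 : ℝ) ^ n := by
        simp only [hF1, Finset.sum_product, Finset.sum_singleton, Finset.sum_const,
          Finset.card_product, Finset.card_powerset, Finset.card_range, nsmul_eq_mul]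
        have := hbr (f n)
        have e : (1 / 2 : ℝ) ^ n = 2 ^ n * (1 / 4 : ℝ) ^ n := by rw [← mul_pow]; norm_num
        rw [e]
        push_cast
        field_simp
      have h4 : ∑ k ∈ F2 n, (1 / 4 : ℝ) ^ n / b k.1 ≤ (1 / 2 : ℝ) ^ n := by
        simp only [hF2]
        split_ifs
        · simp only [Finset.sum_product, Finset.sum_singleton, Finset.sum_const,
            Finset.card_product, Finset.card_powerset, Finset.card_range, nsmul_eq_mul]
          have h5 : 2 ^ (g γ n).1 * (g γ n).2.card ≤ b (g γ n).1 :=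
            (Nat.mul_le_mul_right _ (Nat.pow_le_pow_left (by norm_num) _)).trans (h.1 γ n)
          have h6 : (2 : ℝ) ^ (g γ n).1 * (g γ n).2.card ≤ b (g γ n).1 := by exact_mod_cast h5
          have h7 : (1 / 4 : ℝ) ^ n ≤ (1 / 2 : ℝ) ^ n :=
            pow_le_pow_left₀ (by norm_num) (by norm_num) n
          refine le_trans ?_ h7
          push_cast
          rw [mul_div_assoc', div_le_iff₀ (hbr _), mul_comm]
          exact mul_le_mul_of_nonneg_left h6 (by positivity)
        · simp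
      linarith
    · rintro p ⟨A, hy, hp, hgap⟩ N
      rcases le_total γ (α (p 1) hy) with hle | hle
      · obtain ⟨m, hm⟩ := hγ _ hle
        obtain ⟨n, hn, hA⟩ := hgap (max N m)
        refine ⟨n, (le_max_left _ _).trans hn,
          (f n, (Finset.range n).filter (· ∈ A), dig (p 1) (f n)), Finset.mem_union_left _ ?_,
          hmem p A _ _ hy hp (fun j hj => ?_)⟩
        · simp only [hF1, Finset.mem_product, Finset.mem_singleton, Finset.mem_powerset,
            Finset.mem_range, true_and]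
          exact ⟨Finset.filter_subset _ _, hdl _ hy _⟩
        · simp only [Finset.mem_filter, Finset.mem_range]
          refine ⟨fun hA' => ⟨?_, hA'⟩, fun h' => h'.2⟩
          by_contra hnj
          have h1 : (g (α (p 1) hy) n).1 ≤ j := hA j hA' (not_lt.1 hnj)
          have h2 := (hm n ((le_max_right _ _).trans hn)).1
          omega
      · obtain ⟨m, hm⟩ := hγ γ le_rfl
        obtain ⟨m', hm'⟩ := hα _ hy γ hle
        set n := max N (max m m') with hn
        have h1 := (hm n (by omega)).1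
        have h2 := (hm' n (by omega)).2
        refine ⟨n, le_max_left _ _,
          ((g γ n).1, (Finset.range (g γ n).1).filter (· ∈ A), dig (p 1) (g γ n).1),
          Finset.mem_union_right _ ?_, hmem p A _ _ hy hp (fun j hj => ?_)⟩
        · simp only [hF2, if_pos h1, Finset.mem_product, Finset.mem_singleton,
            Finset.mem_powerset, true_and]
          exact ⟨Finset.filter_subset _ _, h2⟩
        · simp [hj]

end Pool.Agent.H589Z.BSet
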